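import Pool.Agent.H2.ST.Targets

/-!
Row TRM: the slices are algebraically independent over the common kernel.
-/

set_option autoImplicit false

open Pool.Agent.H2.ST MvPolynomial

namespace Pool.Agent.H80.ST2

variable {k : Type} [Field k] {m : ℕ}

lemma chain {σ : Type} [DecidableEq σ] (D : Derivation k (Pol k m) (Pol k m)) (F : σ → Pol k m)
    (j : σ) (hF : ∀ l, D (F l) = if j = l then 1 else 0) (P : MvPolynomial σ k) :
    D (aeval F P) = aeval F (pderiv j P) := by
  induction P using MvPolynomial.induction_on with
  | C a => simp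
  | add p q hp hq => rw [map_add, map_add, hp, hq, map_add, map_add]
  | mul_X p l hp =>
    rw [map_mul, aeval_X, Derivation.leibniz, hp, hF, Derivation.leibniz, pderiv_X, map_add,
      smul_eq_mul, smul_eq_mul, smul_eq_mul, smul_eq_mul, map_mul, map_mul, aeval_X,
      Pi.single_apply]
    split_ifs with h1 h2 h2
    · simp
    · exact absurd h1.symm h2
    · exact absurd h2.symm h1
    · simp

lemma indep_aux {n : ℕ} {ι : Type} [DecidableEq ι] [CharZero k]
    (D : ι → Derivation k (Pol k m) (Pol k m)) (z : ι → Pol k m) (f : Fin n → Pol k m)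
    (hz : ∀ i j, D i (z j) = if i = j then 1 else 0) (hf : ∀ i l, D i (f l) = 0)
    (hi : AlgebraicIndependent k f) (d : ℕ) : ∀ P : MvPolynomial (Fin n ⊕ ι) k,
    (∀ e ∈ P.support, e.degree < d) → aeval (Sum.elim f z) P = 0 → P = 0 := by
  induction d with
  | zero =>
    intro P hP _
    rw [← MvPolynomial.support_eq_empty, Finset.eq_empty_iff_forall_notMem]
    exact fun e he => absurd (hP e he) (Nat.not_lt_zero _)
  | succ d ih =>
    intro P hP h0
    have h1 : ∀ i : ι, pderiv (Sum.inr i) P = 0 := by
      intro i
      refine ih _ ?_ ?_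
      · intro e he
        rw [mem_support_iff, coeff_pderiv] at he
        have h2 : e + Finsupp.single (Sum.inr i) 1 ∈ P.support := by
          rw [mem_support_iff]
          exact left_ne_zero_of_mul he
        have h3 := hP _ h2
        rw [map_add, Finsupp.degree_single] at h3
        omega
      · rw [← chain (D i) (Sum.elim f z) (Sum.inr i) _ P, h0, map_zero]
        rintro (l | j)
        · simp [hf]
        · simp [hz]
    have h2 : ∀ i : ι, ∀ e ∈ P.support, e (Sum.inr i) = 0 := by
      intro i e he
      by_contra hne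
      obtain ⟨e', he'⟩ : ∃ e' : (Fin n ⊕ ι) →₀ ℕ, e' = e - Finsupp.single (Sum.inr i) 1 :=
        ⟨_, rfl⟩
      have h3 : e' + Finsupp.single (Sum.inr i) 1 = e := by
        rw [he', tsub_add_cancel_of_le]
        rw [Finsupp.single_le_iff]
        omega
      have h4 := coeff_pderiv (i := Sum.inr i) P e'
      rw [h1 i, coeff_zero, h3] at h4
      have h5 : (((e' (Sum.inr i) : ℕ) : k) + 1) ≠ 0 := Nat.cast_add_one_ne_zero _
      rw [mem_support_iff] at he
      exact (mul_ne_zero he h5) h4.symm
    obtain ⟨Q, hQ⟩ : ∃ Q : MvPolynomial (Fin n) k, rename Sum.inl Q = P := by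
      refine exists_rename_eq_of_vars_subset_range P Sum.inl Sum.inl_injective ?_
      intro x hx
      rw [Finset.mem_coe, mem_vars_iff_mem_support] at hx
      obtain ⟨e, he, hex⟩ := hx
      rcases x with l | i
      · exact ⟨l, rfl⟩
      · exact absurd (h2 i e he) (Finsupp.mem_support_iff.1 hex)
    rw [← hQ, aeval_rename] at h0
    have h6 : aeval f Q = 0 := h0
    have h7 : Q = 0 := (algebraicIndependent_iff.1 hi) Q h6
    rw [← hQ, h7, map_zero]

theorem pf_TRM : T_TRM := by
  intro k _ _ m n ι _ _ D z f _ hz hf hi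
  have h1 : AlgebraicIndependent k (Sum.elim f z) := by
    rw [algebraicIndependent_iff]
    intro P hP
    refine indep_aux D z f hz hf hi (P.support.sup (fun e => e.degree) + 1) P ?_ hP
    intro e he
    exact Nat.lt_succ_of_le (Finset.le_sup (f := fun e : (Fin n ⊕ ι) →₀ ℕ => e.degree) he)
  have h2 := h1.lift_cardinalMk_le_trdeg
  rw [MvPolynomial.trdeg_of_isDomain] at h2
  simp only [Cardinal.mk_fintype, Fintype.card_sum, Fintype.card_fin, Cardinal.lift_natCast] at h2
  have h3 : n + Fintype.card ι ≤ m + m := by exact_mod_cast h2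
  omega

end Pool.Agent.H80.ST2
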